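import Pool.Agent.Q48.RD.Exact

/-!
# All transitions modulo 4 between neighbouring twin pairs of almost primes

Let `a, b ∈ {1, 3}` and let `h > 0` be a multiple of `6` with `a + h ≡ b (mod 4)` (for example `h = 12` if `a = b`, and `h = 6` if
`a ≠ b`). We consider the `m ≡ a (mod 4)` for which `m`, `m + 2`, `m + h`, `m + h + 2` are almost primes and no other integer between
`m` and `m + h + 2` is a prime. So `(m, m + 2)` and `(m + h, m + h + 2)` are twin pairs of almost primes in the classes `a` and `b` modulo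
`4` with no pair of twin primes between them: the analogue, for almost primes, of two consecutive twin prime pairs with the residues
`a` and `b`.

Let `g ≥ 2` be a base and `K` a large number of digits. For every `i < K` let `A i` be an arbitrary set of digits, such that the number
`|A 0| ⋯ |A (K - 1)|` of the integers `t < g ^ K` whose `i`-th digit belongs to `A i` for all `i < K` is at least `exp (- c K) g ^ K`
(`Rich`). Let `N ≤ g ^ (E K)`. The number of the `m = 4 (N + t) + a` with these `t`, as above, the almost primes having at most `r` prime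
factors, all larger than `g ^ (K / r)`, is at least `κ |A 0| ⋯ |A (K - 1)| / K ^ 4`, unless there is an obvious obstruction; the number
of the `m = 4 (N + t) + a` with these `t` for which the four numbers are primes is at most `C |A 0| ⋯ |A (K - 1)| / K ^ 4`. The constants
do not depend on `N` and on the sets `A i`.

So in all short intervals and in all these sparse sets the four transitions occur with the same order of magnitude for the almost
primes, and with at most this order of magnitude for the primes.
-/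

set_option autoImplicit false

namespace Pool.Agent.Results.MP_74f661_nt.AlmostPrimeTransitions

open Filter Finset
open Pool.Agent.Q315.RD Pool.Agent.Q48.RD

/-- `m`, `m + 2`, `m + h`, `m + h + 2` are almost primes (at most `r` prime factors `p`, all with `p ^ r > y`) and no other integer
between `m` and `m + h + 2` is a prime. -/
def NeighbouringPairs (y r h m : ℕ) : Prop :=
  AlmostPrime y r m ∧ AlmostPrime y r (m + 2) ∧ AlmostPrime y r (m + h) ∧ AlmostPrime y r (m + h + 2) ∧
    ∀ n : ℕ, m < n → n < m + h + 2 → n ≠ m + 2 → n ≠ m + h → ¬ n.Prime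

/-- the constant terms -/
def shifts (a h : ℕ) : Fin 4 → ℕ := ![a, a + 2, a + h, a + h + 2]

lemma adm {a h : ℕ} (ha : a = 1 ∨ a = 3) (h6 : 6 ∣ h) : AdmLin (fun _ : Fin 4 => 4) (shifts a h) := by
  intro p hp
  rcases Nat.lt_or_ge p 5 with h5 | h5
  · have h2 := hp.two_le
    have h3 : p = 2 ∨ p = 3 := by
      by_contra hcon
      have : p = 4 := by omega
      subst this
      revert hp
      norm_num
    obtain ⟨u, rfl⟩ := h6
    rcases h3 with rfl | rfl
    · refine ⟨0, fun j hj => ?_⟩
      fin_cases j <;> simp [shifts] at hj <;> omega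
    · rcases ha with rfl | rfl
      · refine ⟨1, fun j hj => ?_⟩
        fin_cases j <;> simp [shifts] at hj <;> omega
      · refine ⟨2, fun j hj => ?_⟩
        fin_cases j <;> simp [shifts] at hj <;> omega
  · refine adm_big _ _ hp (by omega) fun _ hj => ?_
    have := Nat.le_of_dvd (by norm_num) hj
    omega

/-- **All transitions modulo 4 between neighbouring twin pairs of almost primes.** -/
theorem result (a b h E : ℕ) (ha : a = 1 ∨ a = 3) (h0 : 0 < h) (h6 : 6 ∣ h) (hb : (a + h) % 4 = b) :
    ∃ c : ℝ, 0 < c ∧ ∃ r₀ : ℕ, 2 ≤ r₀ ∧ ∀ r : ℕ, r₀ ≤ r → ∀ g : ℕ, 2 ≤ g → ∃ κ C : ℝ, 0 < κ ∧ 0 < C ∧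
      ∀ᶠ K : ℕ in atTop, ∀ N : ℕ, N ≤ g ^ (E * K) → ∀ A : ℕ → Finset ℕ, Rich c g K A →
        ((∃ d ∈ A 0, (4 * (N + d) + a).Coprime g ∧ (4 * (N + d) + a + 2).Coprime g ∧ (4 * (N + d) + a + h).Coprime g ∧
            (4 * (N + d) + a + h + 2).Coprime g) →
          κ * choices K A / (K : ℝ) ^ 4 ≤ count g K A fun t =>
            NeighbouringPairs (g ^ K) r h (4 * (N + t) + a) ∧ (4 * (N + t) + a) % 4 = a ∧ (4 * (N + t) + a + h) % 4 = b) ∧
        (count g K A (fun t => (4 * (N + t) + a).Prime ∧ (4 * (N + t) + a + 2).Prime ∧ (4 * (N + t) + a + h).Prime ∧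
            (4 * (N + t) + a + h + 2).Prime) : ℝ) ≤ C * choices K A / (K : ℝ) ^ 4 := by
  classical
  have hinj : ∀ i j : Fin 4, (fun _ : Fin 4 => 4) i = (fun _ : Fin 4 => 4) j → shifts a h i = shifts a h j → i = j := by
    intro i j _ hij
    fin_cases i <;> fin_cases j <;> simp [shifts] at hij ⊢ <;> omega
  obtain ⟨c, hc, r₀, hr₀, h1⟩ := exactLin (fun _ : Fin 4 => 4) (shifts a h) (fun _ => by norm_num) hinj (adm ha h6)
    (((Ioo 0 (h + 2)).filter fun i => i ≠ 2 ∧ i ≠ h).image fun i => (4, a + i))
    (fun e he => by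
      obtain ⟨i, hi, rfl⟩ := mem_image.1 he
      obtain ⟨h2, h3, h4⟩ := mem_filter.1 hi
      have h5 := mem_Ioo.1 h2
      refine ⟨by norm_num, fun j => ?_⟩
      fin_cases j <;> simp [shifts] <;> omega) E
  refine ⟨c, hc, r₀, hr₀, fun r hr g hg => ?_⟩
  obtain ⟨κ, C, hκ, hC, h2⟩ := h1 r hr g hg
  refine ⟨κ, C, hκ, hC, ?_⟩
  filter_upwards [h2] with K hK
  intro N hN A hA
  obtain ⟨e1, e2⟩ := hK N hN A hA
  constructor
  · rintro ⟨d, hd, h3, h4, h5, h7⟩
    refine (e1 ⟨d, hd, fun j => ?_⟩).trans (Nat.cast_le.2 (count_mono fun t ht hP => ?_))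
    · fin_cases j
      · exact h3
      · exact h4
      · change (4 * (N + d) + (a + h)).Coprime g
        rwa [← add_assoc]
      · change (4 * (N + d) + (a + h + 2)).Coprime g
        rwa [← add_assoc, ← add_assoc]
    · obtain ⟨hP1, hP2⟩ := hP
      have h8 : AlmostPrime (g ^ K) r (4 * (N + t) + (a + h)) := hP1 2
      have h9 : AlmostPrime (g ^ K) r (4 * (N + t) + (a + h + 2)) := hP1 3
      rw [← add_assoc] at h8
      rw [← add_assoc, ← add_assoc] at h9
      refine ⟨⟨hP1 0, hP1 1, h8, h9, fun n hn1 hn2 hn3 hn4 hn5 => ?_⟩, by omega, by omega⟩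
      refine hP2 (4, a + (n - (4 * (N + t) + a))) (mem_image.2 ⟨n - (4 * (N + t) + a), ?_, rfl⟩) ?_
      · exact mem_filter.2 ⟨mem_Ioo.2 ⟨by omega, by omega⟩, by omega, by omega⟩
      · have : 4 * (N + t) + (a + (n - (4 * (N + t) + a))) = n := by omega
        simp only [this]
        exact hn5
  · refine le_trans (Nat.cast_le.2 (count_mono fun t ht hP j => ?_)) e2
    fin_cases j
    · exact hP.1
    · exact hP.2.1
    · change (4 * (N + t) + (a + h)).Prime
      rw [← add_assoc]
      exact hP.2.2.1
    · change (4 * (N + t) + (a + h + 2)).Prime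
      rw [← add_assoc, ← add_assoc]
      exact hP.2.2.2

end Pool.Agent.Results.MP_74f661_nt.AlmostPrimeTransitions
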