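import Pool.Agent.Q44.Pairs

/-!
# Twin almost primes with prescribed residues modulo `4`: the laws

Every twin prime pair above `(3, 5)` is `(12x + 5, 12x + 7)` (first member `≡ 1` modulo `4`) or `(12x - 1, 12x + 1)` (first
member `≡ 3` modulo `4`).  Let `s ≥ 1`, `0 < η ≤ E`, `0 < θ`, and let `c` be ANY sequence of `s` of these two classes.  For
EVERY large `X` and ALL places `w_1, ..., w_s ≤ X ^ E` (multiples of `(2s)!` with mutual distances `≥ X ^ η`; for `s = 1` one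
can take `w_1 = 0`) call `m` good if for `i = 1, ..., s` the pair of the class `c_i` with `x = m + w_i` has no prime factor
`≤ X ^ (1/r)`.  In ALL intervals of length at least `X ^ θ` the numbers of the good `m` in windows follow the Poisson law
and the gaps between the good `m` are exponentially distributed, and
almost all elements of an ARBITRARY set of good `m` (for instance of the `m` for which all these pairs are twin primes)
are regular points of this set.
-/

set_option autoImplicit false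

namespace Pool.Agent.Results.MP_74f661_nt.PairsAtPrescribedDistances

open Finset
open Pool.Agent.Q25.UReg (Good V count pois PoissonLaw GapLaw N RightOrder ConstantDensity badScales Irregular)
open Pool.Agent.Q44.Pairs (co ct Data)

/-- the coefficients -/
def α : Fin 2 → ℕ := ![12, 12]

/-- the constant terms: `12x + 5, 12x + 7` (class `1` modulo `4`: `c i = true`) or `12x - 1, 12x + 1` (class `3`) -/
def β {s : ℕ} (c : Fin s → Bool) (i : Fin s) : Fin 2 → ℤ := if c i then ![5, 7] else ![-1, 1]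

lemma adm4 (p : ℕ) (hp : p.Prime) : ∃ m : ℤ, ¬ (p : ℤ) ∣ 12 * m + 5 ∧ ¬ (p : ℤ) ∣ 12 * m + 7 ∧
    ¬ (p : ℤ) ∣ 12 * m + -1 ∧ ¬ (p : ℤ) ∣ 12 * m + 1 := by
  have hp1 : ¬ (p : ℤ) ∣ 1 := fun h => hp.one_lt.ne' (Nat.dvd_one.1 (by exact_mod_cast h))
  rcases Nat.lt_or_ge 4 p with h4 | h4
  · obtain ⟨m, hm⟩ := Pool.Agent.Q25.UReg.adm_small (k := 4) ![12, 12, 12, 12] ![5, 7, -1, 1] p hp h4 (by
      intro i h
      apply hp1
      fin_cases i
      · have h1 : (p : ℤ) ∣ 12 := h.1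
        have h2 : (p : ℤ) ∣ 5 := h.2
        have e : (1 : ℤ) = 5 * 5 - 2 * 12 := by norm_num
        rw [e]
        exact dvd_sub (h2.mul_left _) (h1.mul_left _)
      · have h1 : (p : ℤ) ∣ 12 := h.1
        have h2 : (p : ℤ) ∣ 7 := h.2
        have e : (1 : ℤ) = 7 * 7 - 4 * 12 := by norm_num
        rw [e]
        exact dvd_sub (h2.mul_left _) (h1.mul_left _)
      · have h2 : (p : ℤ) ∣ -1 := h.2
        exact (dvd_neg).1 h2
      · exact h.2)
    exact ⟨m, hm 0, hm 1, hm 2, hm 3⟩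
  · have h5 : p = 2 ∨ p = 3 := by
      have := hp.two_le
      rcases Nat.lt_or_ge p 4 with h6 | h6
      · omega
      · exfalso
        have : p = 4 := by omega
        subst this
        exact absurd hp (by norm_num)
    refine ⟨0, ?_⟩
    rcases h5 with rfl | rfl <;> norm_num

lemma data {s : ℕ} (c : Fin s → Bool) : Data α (β c) where
  pos j := by fin_cases j <;> decide
  cop i j := by
    unfold β
    split_ifs
    · fin_cases j
      · change IsCoprime (12 : ℤ) 5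
        exact ⟨-2, 5, by norm_num⟩
      · change IsCoprime (12 : ℤ) 7
        exact ⟨-4, 7, by norm_num⟩
    · fin_cases j
      · exact (isCoprime_one_right (x := ((α 0 : ℕ) : ℤ))).neg_right
      · exact isCoprime_one_right
  ntr i j j' hj _ := by
    unfold β
    split_ifs
    · fin_cases j <;> fin_cases j'
      · exact absurd rfl hj
      · change ¬ (12 : ℤ) ∣ 5 - 7
        omega
      · change ¬ (12 : ℤ) ∣ 7 - 5
        omega
      · exact absurd rfl hj
    · fin_cases j <;> fin_cases j'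
      · exact absurd rfl hj
      · change ¬ (12 : ℤ) ∣ -1 - 1
        omega
      · change ¬ (12 : ℤ) ∣ 1 - -1
        omega
      · exact absurd rfl hj
  sml p hp _ := by
    obtain ⟨m, h1, h2, h3, h4⟩ := adm4 p hp
    refine ⟨m, fun i j => ?_⟩
    unfold β
    split_ifs
    · fin_cases j
      · exact h1
      · exact h2
    · fin_cases j
      · exact h3
      · exact h4

/-- **Twin almost primes with prescribed residues modulo `4` at `s` prescribed places.** -/
theorem result (s : ℕ) (hs : 1 ≤ s) (c : Fin s → Bool) (E η θ : ℝ) (hE : 0 < E) (hη : 0 < η) (hθ : 0 < θ) :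
    (∀ (r X m : ℕ) (w : Fin s → ℕ), Good (co s α) (ct α (β c) w) r X m ↔
      ∀ p : ℕ, p.Prime → (p : ℝ) ≤ (X : ℝ) ^ (1 / (r : ℝ)) → ∀ i,
        ¬ (p : ℤ) ∣ 12 * ((m : ℤ) + w i) + (if c i then 5 else -1) ∧
        ¬ (p : ℤ) ∣ 12 * ((m : ℤ) + w i) + (if c i then 7 else 1)) ∧
    (∀ (l₀ : ℕ) (x₀ ε : ℝ), 0 < ε → ∃ r₀ : ℕ, ∀ r : ℕ, r₀ ≤ r → ∃ X₀ : ℕ, ∀ X : ℕ, X₀ ≤ X →
      ∀ w : Fin s → ℕ, (∀ i, (2 * s).factorial ∣ w i ∧ (w i : ℝ) ≤ (X : ℝ) ^ E) →
        (∀ i i', i ≠ i' → (X : ℝ) ^ η ≤ |(w i : ℝ) - w i'|) → ∀ Z Y : ℕ, (X : ℝ) ^ θ ≤ Y →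
          PoissonLaw (co s α) (ct α (β c) w) r X Z Y x₀ ε ∧ GapLaw (co s α) (ct α (β c) w) r X Z Y l₀ x₀ ε) ∧
    ∃ r₀ : ℕ, ∀ r : ℕ, r₀ ≤ r → ∀ ε : ℝ, 0 < ε → ∃ κ : ℝ, 0 < κ ∧ ∀ δ : ℝ, 0 < δ → ∃ B X₀ : ℕ,
      ∀ X : ℕ, X₀ ≤ X → ∀ w : Fin s → ℕ, (∀ i, (2 * s).factorial ∣ w i ∧ (w i : ℝ) ≤ (X : ℝ) ^ E) →
        ∀ u Y : ℕ, (X : ℝ) ^ θ ≤ Y → Y ≤ X → Y ≤ u →
        ∀ A : Set ℕ, (∀ m ∈ A, Good (co s α) (ct α (β c) w) r X m) →
          (N (Irregular A (V (co s α) (ct α (β c) w) r X) κ δ B Y) u (u + Y) : ℝ) ≤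
            ε * (Y * V (co s α) (ct α (β c) w) r X) := by
  refine ⟨fun r X m w => ?_, Pool.Agent.Q44.Pairs.laws hs (data c) E η θ hE hη hθ⟩
  rw [Pool.Agent.Q44.Pairs.good_iff]
  refine forall_congr' fun p => forall_congr' fun _ => forall_congr' fun _ => forall_congr' fun i => ?_
  rw [Fin.forall_fin_two]
  unfold β
  split_ifs
  · exact Iff.rfl
  · exact Iff.rfl

end Pool.Agent.Results.MP_74f661_nt.PairsAtPrescribedDistances
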